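import Pool.Agent.CSH.A2

/-!
# Base facts for one function `L` on the disc

* `A2 L`: the second coefficient bound at every base point.
* `growth_anti`: `|L'(tζ)| (1-t)^4 / (1+t)^2` is nonincreasing on every radius.
-/

set_option autoImplicit false

namespace Pool.REG73

open Complex Set Metric Filter Topology
open scoped ComplexConjugate

/-- Second coefficient bound for all Koebe transforms, `L' ≠ 0`. -/
structure A2 (L : ℂ → ℂ) : Prop where
  dL : DifferentiableOn ℂ L (ball 0 1)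
  ne : ∀ z ∈ ball (0 : ℂ) 1, deriv L z ≠ 0
  bd : ∀ z ∈ ball (0 : ℂ) 1,
    ‖((1 - ‖z‖ ^ 2 : ℝ) : ℂ) * (deriv (deriv L) z / deriv L z) - 2 * conj z‖ ≤ 6

theorem a2_of_achr {L F G R : ℂ → ℂ} (hS : Pool.CSH.Surf (ball 0 1) L F G R)
    (hK : Pool.CSH.Achr (ball 0 1) L F G) : A2 L := by
  refine ⟨hS.dL, hS.hL, fun a ha => ?_⟩
  have ha' : ‖a‖ < 1 := by simpa using ha
  have h0 : (0 : ℂ) ∈ ball (0 : ℂ) 1 := by simp
  have hS' := Pool.CSH.surf_aut ha' hS
  have hK' : Pool.CSH.Achr (ball 0 1) (fun z => L (Pool.CSH.aut a z))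
      (fun z => F (Pool.CSH.aut a z)) (fun z => G (Pool.CSH.aut a z)) := by
    intro x hx y hy hxy
    refine hK _ (Pool.CSH.aut_mem ha' hx) _ (Pool.CSH.aut_mem ha' hy) ?_
    intro heq
    have h1 := Pool.CSH.aut_sub ha' hx hy
    rw [heq, sub_self] at h1
    have hc : ((1 - ‖a‖ ^ 2 : ℝ) : ℂ) ≠ 0 := by
      have : 0 < 1 - ‖a‖ ^ 2 := by nlinarith [norm_nonneg a]
      exact_mod_cast this.ne'
    have h2 := Pool.CSH.dn_ne ha' hx
    have h3 := Pool.CSH.dn_ne ha' hy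
    have h4 : x - y ≠ 0 := sub_ne_zero.2 hxy
    exact absurd h1.symm (div_ne_zero (mul_ne_zero hc h4) (mul_ne_zero h2 h3))
  have h1 := Pool.CSH.a2_bound hS' hK'
  rw [Pool.CSH.comp_deriv2 ha' hS.dL h0, (Pool.CSH.comp_hasDerivAt ha' hS.dL h0).deriv] at h1
  have e0 : Pool.CSH.aut a 0 = a := by simp [Pool.CSH.aut, Pool.CSH.dn]
  have e1 : Pool.CSH.dn a 0 = 1 := by simp [Pool.CSH.dn]
  rw [e0, e1] at h1
  simp only [one_pow, div_one] at h1
  have hL0 := hS.hL a ha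
  have hpos : 0 < 1 - ‖a‖ ^ 2 := by nlinarith [norm_nonneg a]
  set c : ℂ := ((1 - ‖a‖ ^ 2 : ℝ) : ℂ) with hc
  have hcn : ‖c‖ = 1 - ‖a‖ ^ 2 := by
    rw [hc, Complex.norm_real, Real.norm_of_nonneg hpos.le]
  have e2 : deriv (deriv L) a * c ^ 2 - deriv L a * (2 * c * conj a) =
      (deriv L a * c) * (c * (deriv (deriv L) a / deriv L a) - 2 * conj a) := by
    field_simp
  rw [e2, norm_mul, norm_mul, hcn] at h1
  have h3 : 0 < ‖deriv L a‖ * (1 - ‖a‖ ^ 2) := mul_pos (norm_pos_iff.2 hL0) hpos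
  exact le_of_mul_le_mul_left (by linarith) h3

variable {L : ℂ → ℂ}

lemma mem_dir {e : ℂ} (he : ‖e‖ = 1) {t : ℝ} (h0 : 0 ≤ t) (h1 : t < 1) :
    (t : ℂ) * e ∈ ball (0 : ℂ) 1 := by
  rw [mem_ball_zero_iff, norm_mul, he, mul_one, Complex.norm_real, Real.norm_eq_abs,
    abs_of_nonneg h0]
  exact h1

lemma hasDerivAt_line (e : ℂ) (t : ℝ) : HasDerivAt (fun s : ℝ => (s : ℂ) * e) e t := by
  simpa using (Complex.ofRealCLM.hasDerivAt (x := t)).mul_const e

lemma hasDerivAt_deriv (h : A2 L) {z : ℂ} (hz : z ∈ ball (0 : ℂ) 1) :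
    HasDerivAt (deriv L) (deriv (deriv L) z) z := by
  have hop : IsOpen (ball (0 : ℂ) 1) := isOpen_ball
  exact ((h.dL.deriv hop z hz).differentiableAt (hop.mem_nhds hz)).hasDerivAt

/-- logarithmic derivative of `|L'|` along a radius -/
lemma hasDerivAt_logL (h : A2 L) {e : ℂ} (he : ‖e‖ = 1) {t : ℝ} (h0 : 0 ≤ t) (h1 : t < 1) :
    HasDerivAt (fun s : ℝ => Real.log ‖deriv L ((s : ℂ) * e)‖)
      ((e * (deriv (deriv L) ((t : ℂ) * e) / deriv L ((t : ℂ) * e))).re) t := by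
  have hm := mem_dir he h0 h1
  have hu : HasDerivAt (fun s : ℝ => deriv L ((s : ℂ) * e)) (deriv (deriv L) ((t : ℂ) * e) * e) t := by
    have h1 : HasDerivAt (deriv L) (deriv (deriv L) ((t : ℂ) * e)) ((t : ℂ) * e) :=
      hasDerivAt_deriv h hm
    exact h1.comp t (hasDerivAt_line e t)
  have h2 := (Pool.CSH.hasDerivAt_log_normSq hu (h.ne _ hm)).const_mul (1 / 2 : ℝ)
  have e1 : (fun s : ℝ => (1 / 2 : ℝ) * Real.log (normSq (deriv L ((s : ℂ) * e)))) =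
      fun s : ℝ => Real.log ‖deriv L ((s : ℂ) * e)‖ := by
    funext s
    rw [Complex.normSq_eq_norm_sq, Real.log_pow]
    push_cast; ring
  rw [e1] at h2
  refine h2.congr_deriv ?_
  have e3 : deriv (deriv L) ((t : ℂ) * e) * e / deriv L ((t : ℂ) * e) =
      e * (deriv (deriv L) ((t : ℂ) * e) / deriv L ((t : ℂ) * e)) := by ring
  rw [e3]
  ring

/-- the radial logarithmic derivative bound -/
lemma re_bound (h : A2 L) {e : ℂ} (he : ‖e‖ = 1) {t : ℝ} (h0 : 0 ≤ t) (h1 : t < 1) :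
    (e * (deriv (deriv L) ((t : ℂ) * e) / deriv L ((t : ℂ) * e))).re ≤ (6 + 2 * t) / (1 - t ^ 2) := by
  have hm := mem_dir he h0 h1
  have hb := h.bd _ hm
  have hn : ‖(t : ℂ) * e‖ = t := by
    rw [norm_mul, he, mul_one, Complex.norm_real, Real.norm_of_nonneg h0]
  rw [hn] at hb
  have hpos : 0 < 1 - t ^ 2 := by nlinarith
  set T := deriv (deriv L) ((t : ℂ) * e) / deriv L ((t : ℂ) * e)
  have hee : e * conj e = 1 := by
    rw [Complex.mul_conj, Complex.normSq_eq_norm_sq, he]; norm_num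
  have e2 : e * (((1 - t ^ 2 : ℝ) : ℂ) * T - 2 * conj ((t : ℂ) * e)) =
      ((1 - t ^ 2 : ℝ) : ℂ) * (e * T) - ((2 * t : ℝ) : ℂ) := by
    rw [map_mul, Complex.conj_ofReal]
    push_cast
    linear_combination (-2 * (t : ℂ)) * hee
  have h3 : ‖((1 - t ^ 2 : ℝ) : ℂ) * (e * T) - ((2 * t : ℝ) : ℂ)‖ ≤ 6 := by
    rw [← e2, norm_mul, he, one_mul]; exact hb
  have h4 := le_trans (Complex.re_le_norm _) h3
  rw [Complex.sub_re, Complex.re_ofReal_mul, Complex.ofReal_re] at h4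
  rw [le_div_iff₀ hpos]
  linarith

/-- logarithm of the normalised growth function -/
noncomputable def lgr (L : ℂ → ℂ) (e : ℂ) (t : ℝ) : ℝ :=
  Real.log ‖deriv L ((t : ℂ) * e)‖ + 4 * Real.log (1 - t) - 2 * Real.log (1 + t)

lemma hasDerivAt_lgr (h : A2 L) {e : ℂ} (he : ‖e‖ = 1) {t : ℝ} (h0 : 0 ≤ t) (h1 : t < 1) :
    HasDerivAt (lgr L e)
      ((e * (deriv (deriv L) ((t : ℂ) * e) / deriv L ((t : ℂ) * e))).re
        - (6 + 2 * t) / (1 - t ^ 2)) t := by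
  have a1 := hasDerivAt_logL h he h0 h1
  have p1 : (1 - t) ≠ 0 := by linarith
  have p2 : (1 + t) ≠ 0 := by linarith
  have a2 : HasDerivAt (fun s : ℝ => Real.log (1 - s)) (-1 / (1 - t)) t :=
    ((hasDerivAt_id t).const_sub 1).log p1
  have a3 : HasDerivAt (fun s : ℝ => Real.log (1 + s)) (1 / (1 + t)) t :=
    ((hasDerivAt_id t).const_add 1).log p2
  have a4 := (a1.add (a2.const_mul 4)).sub (a3.const_mul 2)
  refine a4.congr_deriv ?_
  have p3 : (1 - t ^ 2) ≠ 0 := by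
    have : (1 - t ^ 2) = (1 - t) * (1 + t) := by ring
    rw [this]; exact mul_ne_zero p1 p2
  have e1 : (6 + 2 * t) / (1 - t ^ 2) = 4 * (1 / (1 - t)) + 2 * (1 / (1 + t)) := by
    have : (1 - t ^ 2) = (1 - t) * (1 + t) := by ring
    rw [this]; field_simp; ring
  rw [e1]
  ring

theorem lgr_anti (h : A2 L) {e : ℂ} (he : ‖e‖ = 1) : AntitoneOn (lgr L e) (Ico 0 1) := by
  refine antitoneOn_of_deriv_nonpos (convex_Ico _ _) ?_ ?_ ?_
  · intro t ht
    exact (hasDerivAt_lgr h he ht.1 ht.2).continuousAt.continuousWithinAt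
  · intro t ht
    rw [interior_Ico] at ht
    exact (hasDerivAt_lgr h he ht.1.le ht.2).differentiableAt.differentiableWithinAt
  · intro t ht
    rw [interior_Ico] at ht
    rw [(hasDerivAt_lgr h he ht.1.le ht.2).deriv]
    have := re_bound h he ht.1.le ht.2
    linarith

/-- `|L'(te)| (1-t)^4 / (1+t)^2` -/
noncomputable def gr (L : ℂ → ℂ) (e : ℂ) (t : ℝ) : ℝ :=
  ‖deriv L ((t : ℂ) * e)‖ * (1 - t) ^ 4 / (1 + t) ^ 2

lemma gr_pos (h : A2 L) {e : ℂ} (he : ‖e‖ = 1) {t : ℝ} (h0 : 0 ≤ t) (h1 : t < 1) :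
    0 < gr L e t := by
  have := norm_pos_iff.2 (h.ne _ (mem_dir he h0 h1))
  have h2 : 0 < 1 - t := by linarith
  unfold gr
  positivity

lemma gr_eq (h : A2 L) {e : ℂ} (he : ‖e‖ = 1) {t : ℝ} (h0 : 0 ≤ t) (h1 : t < 1) :
    gr L e t = Real.exp (lgr L e t) := by
  have p0 := norm_pos_iff.2 (h.ne _ (mem_dir he h0 h1))
  have p1 : 0 < 1 - t := by linarith
  have p2 : 0 < 1 + t := by linarith
  have hlog : Real.log (gr L e t) = lgr L e t := by
    unfold gr lgr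
    rw [Real.log_div (by positivity) (by positivity), Real.log_mul p0.ne' (by positivity),
      Real.log_pow, Real.log_pow]
    push_cast; ring
  rw [← hlog, Real.exp_log (gr_pos h he h0 h1)]

theorem growth_anti (h : A2 L) {e : ℂ} (he : ‖e‖ = 1) : AntitoneOn (gr L e) (Ico 0 1) := by
  intro s hs t ht hst
  rw [gr_eq h he hs.1 hs.2, gr_eq h he ht.1 ht.2]
  exact Real.exp_le_exp.2 (lgr_anti h he hs ht hst)

/-- the growth theorem -/
theorem growth_le (h : A2 L) {z : ℂ} (hz : z ∈ ball (0 : ℂ) 1) :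
    ‖deriv L z‖ * (1 - ‖z‖) ^ 4 ≤ 4 * ‖deriv L 0‖ := by
  have hz1 : ‖z‖ < 1 := by simpa using hz
  obtain ⟨e, he, hze⟩ : ∃ e : ℂ, ‖e‖ = 1 ∧ z = (‖z‖ : ℂ) * e := by
    by_cases h : z = 0
    · exact ⟨1, by simp, by rw [h]; simp⟩
    · have h0 : (‖z‖ : ℂ) ≠ 0 := by exact_mod_cast (norm_ne_zero_iff.2 h)
      refine ⟨z / ‖z‖, ?_, by field_simp⟩
      rw [norm_div, Complex.norm_real, norm_norm, div_self (norm_ne_zero_iff.2 h)]
  have h1 := growth_anti h he (left_mem_Ico.2 one_pos) ⟨norm_nonneg z, hz1⟩ (norm_nonneg z)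
  unfold gr at h1
  rw [← hze] at h1
  simp only [Complex.ofReal_zero, zero_mul, sub_zero, one_pow, mul_one, add_zero, div_one] at h1
  have hp : 0 < (1 + ‖z‖) ^ 2 := by positivity
  rw [div_le_iff₀ hp] at h1
  refine le_trans h1 ?_
  have : (1 + ‖z‖) ^ 2 ≤ 4 := by nlinarith [norm_nonneg z]
  nlinarith [norm_nonneg (deriv L 0)]

end Pool.REG73
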