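import Mathlib

/-!
# Sector asymptotics, part 1

`T` holomorphic on the unit disc, `(1 - |z|) ‖T z‖ ≤ C`, `(1 - s) T s → c` along the radius
`s → 1`.  Then `(1 - z) T z → c` uniformly in every sector `κ |1 - z| ≤ Re (1 - z)`.
Elementary proof: scaled derivatives, Barbalat's lemma, Taylor series (no normal families).
-/

set_option autoImplicit false

namespace Pool.REG73

open Complex Set Metric Filter Topology

/-- Barbalat's lemma: `v → ℓ`, `v' = w`, `w` Lipschitz imply `w → 0`. -/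
theorem barbalat {v w : ℝ → ℂ} {l : ℂ} {a M : ℝ}
    (hv : ∀ x, a < x → HasDerivAt v (w x) x)
    (hw : ∀ x y, a < x → a < y → ‖w y - w x‖ ≤ M * |y - x|)
    (hl : Tendsto v atTop (𝓝 l)) : Tendsto w atTop (𝓝 0) := by
  have hM : 0 ≤ M := by
    have h := hw (a + 1) (a + 2) (by linarith) (by linarith)
    have h1 : |a + 2 - (a + 1)| = 1 := by norm_num
    rw [h1, mul_one] at h
    exact le_trans (norm_nonneg _) h
  rw [Metric.tendsto_atTop] at hl ⊢
  intro ε hε
  set h : ℝ := ε / (2 * (M + 1)) with hh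
  have hM1 : 0 < M + 1 := by linarith
  have hhpos : 0 < h := by positivity
  have hMh : M * h ≤ ε / 2 := by
    rw [hh]
    have : M * (ε / (2 * (M + 1))) = (M / (M + 1)) * (ε / 2) := by field_simp
    rw [this]
    have h1 : M / (M + 1) ≤ 1 := by rw [div_le_one hM1]; linarith
    nlinarith
  obtain ⟨N, hN⟩ := hl (ε * h / 8) (by positivity)
  refine ⟨max N (a + 1), fun x hx => ?_⟩
  have hxN : N ≤ x := le_trans (le_max_left _ _) hx
  have hxa : a < x := by
    have := le_trans (le_max_right N (a + 1)) hx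
    linarith
  rw [dist_zero_right]
  -- compare `v (x+h) - v x` with `h * w x`
  have key : ‖(v (x + h) - (x + h : ℝ) * w x) - (v x - (x : ℝ) * w x)‖ ≤ (M * h) * ‖(x + h) - x‖ := by
    refine Convex.norm_image_sub_le_of_norm_hasDerivWithin_le
      (f := fun y : ℝ => v y - (y : ℂ) * w x) (f' := fun y => w y - w x) (s := Icc x (x + h))
      (fun y hy => ?_) (fun y hy => ?_) (convex_Icc _ _) ⟨le_rfl, by linarith⟩ ⟨by linarith, le_rfl⟩
    · have h1 : HasDerivAt (fun y : ℝ => (y : ℂ) * w x) (1 * w x) y :=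
        (Complex.ofRealCLM.hasDerivAt (x := y)).mul_const (w x)
      have h2 := (hv y (lt_of_lt_of_le hxa hy.1)).sub h1
      rw [one_mul] at h2
      exact h2.hasDerivWithinAt
    · have h1 := hw x y hxa (lt_of_lt_of_le hxa hy.1)
      have h2 : |y - x| ≤ h := by rw [abs_of_nonneg (by linarith [hy.1])]; linarith [hy.2]
      exact le_trans h1 (mul_le_mul_of_nonneg_left h2 hM)
  have e1 : ‖(x + h) - x‖ = h := by
    rw [add_sub_cancel_left, Real.norm_eq_abs, abs_of_pos hhpos]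
  rw [e1] at key
  have e2 : (v (x + h) - (x + h : ℝ) * w x) - (v x - (x : ℝ) * w x) = (v (x + h) - v x) - (h : ℂ) * w x := by
    push_cast; ring
  rw [e2] at key
  have h3 : ‖v (x + h) - v x‖ ≤ ε * h / 4 := by
    have a1 := hN (x + h) (by linarith)
    have a2 := hN x hxN
    rw [dist_eq_norm] at a1 a2
    have : v (x + h) - v x = (v (x + h) - l) - (v x - l) := by ring
    rw [this]
    refine le_trans (norm_sub_le _ _) ?_
    linarith
  have h4 : ‖(h : ℂ) * w x‖ ≤ ε * h / 4 + M * h * h := by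
    have : (h : ℂ) * w x = (v (x + h) - v x) - ((v (x + h) - v x) - (h : ℂ) * w x) := by ring
    rw [this]
    refine le_trans (norm_sub_le _ _) ?_
    linarith
  rw [norm_mul, Complex.norm_real, Real.norm_eq_abs, abs_of_pos hhpos] at h4
  have h5 : ‖w x‖ ≤ ε / 4 + M * h := by
    by_contra hcon
    push Not at hcon
    have := mul_lt_mul_of_pos_left hcon hhpos
    nlinarith
  linarith

variable {T : ℂ → ℂ} {C : ℝ} {c : ℂ}

/-- scaled Taylor coefficients on the radius -/
noncomputable def uu (T : ℂ → ℂ) (k : ℕ) (s : ℝ) : ℂ :=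
  (1 - (s : ℂ)) ^ (k + 1) * iteratedDeriv k T (s : ℂ) / (k.factorial : ℂ)

lemma real_mem_ball {s : ℝ} (h0 : 0 ≤ s) (h1 : s < 1) : (s : ℂ) ∈ ball (0 : ℂ) 1 := by
  rw [mem_ball_zero_iff, Complex.norm_real, Real.norm_eq_abs, abs_of_nonneg h0]; exact h1

/-- Cauchy estimate for the scaled coefficients. -/
lemma uu_bound (hT : DifferentiableOn ℂ T (ball 0 1))
    (hC : ∀ z ∈ ball (0 : ℂ) 1, (1 - ‖z‖) * ‖T z‖ ≤ C) {ρ : ℝ} (hρ0 : 0 < ρ) (hρ1 : ρ < 1)
    (k : ℕ) {s : ℝ} (h0 : 0 ≤ s) (h1 : s < 1) :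
    ‖uu T k s‖ ≤ C / (1 - ρ) / ρ ^ k := by
  have hs : 0 < 1 - s := by linarith
  have hR : 0 < ρ * (1 - s) := mul_pos hρ0 hs
  have hball : closedBall (s : ℂ) (ρ * (1 - s)) ⊆ ball (0 : ℂ) 1 := by
    intro z hz
    rw [mem_closedBall, dist_eq_norm] at hz
    rw [mem_ball_zero_iff]
    have : ‖z‖ ≤ ‖z - s‖ + ‖(s : ℂ)‖ := by
      have := norm_add_le (z - s) (s : ℂ); simpa using this
    rw [Complex.norm_real, Real.norm_eq_abs, abs_of_nonneg h0] at this
    nlinarith
  have hd : DiffContOnCl ℂ T (ball (s : ℂ) (ρ * (1 - s))) := by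
    refine DifferentiableOn.diffContOnCl ?_
    rw [closure_ball _ hR.ne']
    exact hT.mono hball
  have hb : ∀ z ∈ sphere (s : ℂ) (ρ * (1 - s)), ‖T z‖ ≤ C / ((1 - ρ) * (1 - s)) := by
    intro z hz
    have hzb := hball (sphere_subset_closedBall hz)
    have h2 := hC z hzb
    rw [mem_sphere, dist_eq_norm] at hz
    have : ‖z‖ ≤ ‖z - s‖ + ‖(s : ℂ)‖ := by
      have := norm_add_le (z - s) (s : ℂ); simpa using this
    rw [Complex.norm_real, Real.norm_eq_abs, abs_of_nonneg h0, hz] at this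
    have h3 : (1 - ρ) * (1 - s) ≤ 1 - ‖z‖ := by nlinarith
    have h4 : 0 < (1 - ρ) * (1 - s) := mul_pos (by linarith) hs
    rw [le_div_iff₀ h4]
    have := mul_le_mul_of_nonneg_right h3 (norm_nonneg (T z))
    nlinarith
  have h5 := Complex.norm_iteratedDeriv_le_of_forall_mem_sphere_norm_le k hR hd hb
  have hfac : (0 : ℝ) < k.factorial := by exact_mod_cast Nat.factorial_pos k
  have h1s : ‖(1 - (s : ℂ))‖ = 1 - s := by
    rw [← Complex.ofReal_one, ← Complex.ofReal_sub, Complex.norm_real, Real.norm_eq_abs,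
      abs_of_pos hs]
  unfold uu
  rw [norm_div, norm_mul, norm_pow, h1s, Complex.norm_natCast]
  rw [div_le_iff₀ hfac]
  have h6 : (1 - s) ^ (k + 1) * ‖iteratedDeriv k T (s : ℂ)‖ ≤
      (1 - s) ^ (k + 1) * ((k.factorial : ℝ) * (C / ((1 - ρ) * (1 - s))) / (ρ * (1 - s)) ^ k) :=
    mul_le_mul_of_nonneg_left h5 (by positivity)
  refine le_trans h6 (le_of_eq ?_)
  have h1ρ : (1 - ρ) ≠ 0 := by linarith
  field_simp
  rw [mul_pow]
  ring

/-- the derivative of the scaled coefficients in the variable `s` -/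
lemma uu_deriv (hT : DifferentiableOn ℂ T (ball 0 1)) (k : ℕ) {s : ℝ} (h0 : 0 ≤ s) (h1 : s < 1) :
    HasDerivAt (uu T k) ((k + 1) / (1 - (s : ℂ)) * (uu T (k + 1) s - uu T k s)) s := by
  have hmem := real_mem_ball h0 h1
  have hs : (1 - (s : ℂ)) ≠ 0 := by
    rw [← Complex.ofReal_one, ← Complex.ofReal_sub, Complex.ofReal_ne_zero]; linarith
  have hdiff : DifferentiableAt ℂ (iteratedDeriv k T) (s : ℂ) := by
    have hA : AnalyticOnNhd ℂ T (ball 0 1) := hT.analyticOnNhd isOpen_ball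
    rw [iteratedDeriv_eq_iterate]
    exact ((hA (s : ℂ) hmem).iterated_deriv k).differentiableAt
  have h2 : HasDerivAt (fun z : ℂ => (1 - z) ^ (k + 1) * iteratedDeriv k T z / (k.factorial : ℂ))
      (((((k + 1 : ℕ) : ℂ) * (1 - (s : ℂ)) ^ k * (-1)) * iteratedDeriv k T (s : ℂ) +
        (1 - (s : ℂ)) ^ (k + 1) * iteratedDeriv (k + 1) T (s : ℂ)) / (k.factorial : ℂ)) (s : ℂ) := by
    have a1 : HasDerivAt (fun z : ℂ => (1 - z)) (-1) (s : ℂ) := by
      simpa using (hasDerivAt_id (s : ℂ)).const_sub 1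
    have a2 := a1.pow (k + 1)
    have a3 : HasDerivAt (iteratedDeriv k T) (iteratedDeriv (k + 1) T (s : ℂ)) (s : ℂ) := by
      rw [iteratedDeriv_succ]; exact hdiff.hasDerivAt
    have a4 := (a2.mul a3).div_const (k.factorial : ℂ)
    simpa using a4
  have h3 := h2.comp_ofReal
  unfold uu
  convert h3 using 1
  have hf : (k.factorial : ℂ) ≠ 0 := by exact_mod_cast Nat.factorial_ne_zero k
  have hf1 : (((k + 1).factorial : ℕ) : ℂ) = ((k : ℂ) + 1) * (k.factorial : ℂ) := by
    rw [Nat.factorial_succ]; push_cast; ring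
  rw [hf1]
  have hk : ((k : ℂ) + 1) ≠ 0 := by exact_mod_cast Nat.succ_ne_zero k
  push_cast
  field_simp
  ring

end Pool.REG73
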