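import Pool.Agent.REG73.Sector1

/-!
# Sector asymptotics, part 2: all scaled Taylor coefficients converge; Taylor series
-/

set_option autoImplicit false

namespace Pool.REG73

open Complex Set Metric Filter Topology

variable {T : ℂ → ℂ} {C : ℝ} {c : ℂ}

/-- logarithmic variable -/
noncomputable def vx (T : ℂ → ℂ) (k : ℕ) (x : ℝ) : ℂ := uu T k (1 - Real.exp (-x))

lemma exp_neg_mem {x : ℝ} (hx : 0 < x) : 0 < Real.exp (-x) ∧ Real.exp (-x) < 1 :=
  ⟨Real.exp_pos _, by rw [Real.exp_lt_one_iff]; linarith⟩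

lemma vx_deriv (hT : DifferentiableOn ℂ T (ball 0 1)) (k : ℕ) {x : ℝ} (hx : 0 < x) :
    HasDerivAt (vx T k) (((k : ℂ) + 1) * (vx T (k + 1) x - vx T k x)) x := by
  obtain ⟨e0, e1⟩ := exp_neg_mem hx
  have h1 : HasDerivAt (fun y : ℝ => 1 - Real.exp (-y)) (Real.exp (-x)) x := by
    have := (((hasDerivAt_id x).neg).exp).const_sub 1
    simpa using this
  have h2 := (uu_deriv hT k (s := 1 - Real.exp (-x)) (by linarith) (by linarith)).scomp x h1
  have h3 : vx T k = uu T k ∘ fun y : ℝ => 1 - Real.exp (-y) := rfl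
  rw [h3]
  refine h2.congr_deriv ?_
  have e2 : (1 - ((1 - Real.exp (-x) : ℝ) : ℂ)) = ((Real.exp (-x) : ℝ) : ℂ) := by
    push_cast; ring
  rw [e2, Complex.real_smul]
  have e3 : ((Real.exp (-x) : ℝ) : ℂ) ≠ 0 := by
    rw [Complex.ofReal_ne_zero]; exact e0.ne'
  simp only [Function.comp, vx]
  field_simp

lemma vx_bound (hT : DifferentiableOn ℂ T (ball 0 1))
    (hC : ∀ z ∈ ball (0 : ℂ) 1, (1 - ‖z‖) * ‖T z‖ ≤ C) (k : ℕ) {x : ℝ} (hx : 0 < x) :
    ‖vx T k x‖ ≤ C / (1 - 1 / 2) / (1 / 2) ^ k := by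
  obtain ⟨e0, e1⟩ := exp_neg_mem hx
  exact uu_bound hT hC (by norm_num) (by norm_num) k (by linarith) (by linarith)

lemma vx_lip (hT : DifferentiableOn ℂ T (ball 0 1))
    (hC : ∀ z ∈ ball (0 : ℂ) 1, (1 - ‖z‖) * ‖T z‖ ≤ C) (k : ℕ) :
    ∃ M : ℝ, ∀ x y, 0 < x → 0 < y → ‖vx T k y - vx T k x‖ ≤ M * |y - x| := by
  refine ⟨(k + 1) * (C / (1 - 1 / 2) / (1 / 2) ^ (k + 1) + C / (1 - 1 / 2) / (1 / 2) ^ k),
    fun x y hx hy => ?_⟩
  have := Convex.norm_image_sub_le_of_norm_hasDerivWithin_le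
      (f := vx T k) (f' := fun y => ((k : ℂ) + 1) * (vx T (k + 1) y - vx T k y)) (s := Ioi 0)
      (C := (k + 1) * (C / (1 - 1 / 2) / (1 / 2) ^ (k + 1) + C / (1 - 1 / 2) / (1 / 2) ^ k))
      (fun z hz => (vx_deriv hT k hz).hasDerivWithinAt) (fun z hz => ?_) (convex_Ioi _)
      (mem_Ioi.2 hx) (mem_Ioi.2 hy)
  · simpa [Real.norm_eq_abs] using this
  · rw [norm_mul]
    have a1 : ‖((k : ℂ) + 1)‖ = (k : ℝ) + 1 := by
      have : ((k : ℂ) + 1) = ((k + 1 : ℕ) : ℂ) := by push_cast; ring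
      rw [this, Complex.norm_natCast]; push_cast; ring
    rw [a1]
    refine mul_le_mul_of_nonneg_left ?_ (by positivity)
    refine le_trans (norm_sub_le _ _) (add_le_add (vx_bound hT hC _ hz) (vx_bound hT hC _ hz))

/-- all scaled Taylor coefficients have the same limit -/
theorem vx_tendsto (hT : DifferentiableOn ℂ T (ball 0 1))
    (hC : ∀ z ∈ ball (0 : ℂ) 1, (1 - ‖z‖) * ‖T z‖ ≤ C)
    (h0 : Tendsto (vx T 0) atTop (𝓝 c)) (k : ℕ) : Tendsto (vx T k) atTop (𝓝 c) := by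
  induction k with
  | zero => exact h0
  | succ k ih =>
    obtain ⟨M1, hM1⟩ := vx_lip hT hC (k + 1)
    obtain ⟨M0, hM0⟩ := vx_lip hT hC k
    have hk : ‖((k : ℂ) + 1)‖ = (k : ℝ) + 1 := by
      have : ((k : ℂ) + 1) = ((k + 1 : ℕ) : ℂ) := by push_cast; ring
      rw [this, Complex.norm_natCast]; push_cast; ring
    have hb := barbalat (v := vx T k) (w := fun x => ((k : ℂ) + 1) * (vx T (k + 1) x - vx T k x))
      (l := c) (a := 0) (M := (k + 1) * (M1 + M0)) (fun x hx => vx_deriv hT k hx)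
      (fun x y hx hy => by
        have : ((k : ℂ) + 1) * (vx T (k + 1) y - vx T k y) -
            ((k : ℂ) + 1) * (vx T (k + 1) x - vx T k x) =
            ((k : ℂ) + 1) * ((vx T (k + 1) y - vx T (k + 1) x) - (vx T k y - vx T k x)) := by ring
        rw [this, norm_mul, hk, mul_assoc]
        refine mul_le_mul_of_nonneg_left ?_ (by positivity)
        refine le_trans (norm_sub_le _ _) ?_
        have := hM1 x y hx hy
        have := hM0 x y hx hy
        linarith) ih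
    have hne : ((k : ℂ) + 1) ≠ 0 := by exact_mod_cast Nat.succ_ne_zero k
    have h1 : Tendsto (fun x => vx T (k + 1) x - vx T k x) atTop (𝓝 0) := by
      have := hb.const_mul (((k : ℂ) + 1)⁻¹)
      simp only [mul_zero] at this
      refine this.congr (fun x => ?_)
      field_simp
    have h2 := h1.add ih
    simpa using h2

/-- from the logarithmic variable back to `s` -/
lemma tendsto_neg_log : Tendsto (fun s : ℝ => -Real.log (1 - s)) (𝓝[<] 1) atTop := by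
  have h1 : Tendsto (fun s : ℝ => 1 - s) (𝓝[<] 1) (𝓝[>] 0) := by
    refine tendsto_nhdsWithin_iff.2 ⟨?_, ?_⟩
    · have : Tendsto (fun s : ℝ => 1 - s) (𝓝 1) (𝓝 (1 - 1)) :=
        (continuous_const.sub continuous_id).tendsto 1
      simp only [sub_self] at this
      exact this.mono_left nhdsWithin_le_nhds
    · filter_upwards [self_mem_nhdsWithin] with s hs
      exact sub_pos.2 (mem_Iio.1 hs)
  exact tendsto_neg_atBot_atTop.comp (Real.tendsto_log_nhdsGT_zero.comp h1)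

lemma uu_tendsto (hT : DifferentiableOn ℂ T (ball 0 1))
    (hC : ∀ z ∈ ball (0 : ℂ) 1, (1 - ‖z‖) * ‖T z‖ ≤ C)
    (h0 : Tendsto (vx T 0) atTop (𝓝 c)) (k : ℕ) : Tendsto (uu T k) (𝓝[<] 1) (𝓝 c) := by
  have h1 := (vx_tendsto hT hC h0 k).comp tendsto_neg_log
  refine h1.congr' ?_
  filter_upwards [self_mem_nhdsWithin] with s hs
  have hs' : (0 : ℝ) < 1 - s := sub_pos.2 hs
  simp only [Function.comp, vx, neg_neg]
  rw [Real.exp_log hs', sub_sub_cancel]

lemma vx0_of_uu0 (h : Tendsto (uu T 0) (𝓝[<] 1) (𝓝 c)) : Tendsto (vx T 0) atTop (𝓝 c) := by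
  have h1 : Tendsto (fun x : ℝ => 1 - Real.exp (-x)) atTop (𝓝[<] 1) := by
    refine tendsto_nhdsWithin_iff.2 ⟨?_, ?_⟩
    · have : Tendsto (fun x : ℝ => 1 - Real.exp (-x)) atTop (𝓝 (1 - 0)) :=
        tendsto_const_nhds.sub (Real.tendsto_exp_atBot.comp tendsto_neg_atTop_atBot)
      simpa using this
    · filter_upwards with x
      exact sub_lt_self _ (Real.exp_pos _)
  exact h.comp h1

lemma hs_congr {f g : ℕ → ℂ} {a : ℂ} (h : ∀ k, f k = g k) (hf : HasSum f a) : HasSum g a := by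
  rwa [← funext h]

/-- the error series -/
lemma err_tendsto (hT : DifferentiableOn ℂ T (ball 0 1))
    (hC : ∀ z ∈ ball (0 : ℂ) 1, (1 - ‖z‖) * ‖T z‖ ≤ C)
    (h0 : Tendsto (uu T 0) (𝓝[<] 1) (𝓝 c)) {q : ℝ} (hq0 : 0 ≤ q) (hq1 : q < 1) :
    Tendsto (fun s => ∑' k, ‖uu T k s - c‖ * q ^ k) (𝓝[<] 1) (𝓝 0) ∧
      ∀ s : ℝ, 0 ≤ s → s < 1 → Summable (fun k => ‖uu T k s - c‖ * q ^ k) := by
  obtain ⟨ρ, hρ1, hρ2⟩ := exists_between hq1
  have hρ0 : 0 < ρ := lt_of_le_of_lt hq0 hρ1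
  set bound : ℕ → ℝ := fun k => (C / (1 - ρ)) * (q / ρ) ^ k + ‖c‖ * q ^ k with hbd
  have hsum : Summable bound := by
    refine Summable.add ?_ ?_
    · refine Summable.mul_left _ (summable_geometric_of_lt_one (by positivity) ?_)
      rw [div_lt_one hρ0]; exact hρ1
    · exact Summable.mul_left _ (summable_geometric_of_lt_one hq0 hq1)
  have hle : ∀ s : ℝ, 0 ≤ s → s < 1 → ∀ k, ‖‖uu T k s - c‖ * q ^ k‖ ≤ bound k := by
    intro s hs0 hs1 k
    rw [Real.norm_of_nonneg (by positivity)]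
    have h1 := uu_bound hT hC hρ0 hρ2 k hs0 hs1
    have h2 : ‖uu T k s - c‖ ≤ C / (1 - ρ) / ρ ^ k + ‖c‖ :=
      le_trans (norm_sub_le _ _) (add_le_add h1 le_rfl)
    have h3 := mul_le_mul_of_nonneg_right h2 (pow_nonneg hq0 k)
    refine le_trans h3 (le_of_eq ?_)
    simp only [hbd]
    rw [add_mul, div_pow]
    ring
  have h00 := vx0_of_uu0 h0
  constructor
  · have := tendsto_tsum_of_dominated_convergence (𝓕 := 𝓝[<] (1 : ℝ))
      (f := fun s k => ‖uu T k s - c‖ * q ^ k) (g := fun _ => (0 : ℝ)) (bound := bound) hsum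
      (fun k => by
        have h1 := uu_tendsto hT hC h00 k
        have h2 : Tendsto (fun s => ‖uu T k s - c‖) (𝓝[<] 1) (𝓝 0) := by
          have := (h1.sub_const c).norm
          simpa using this
        simpa using h2.mul_const (q ^ k))
      (by
        have : ∀ᶠ s : ℝ in 𝓝[<] (1 : ℝ), s ∈ Ioo (0 : ℝ) 1 :=
          Ioo_mem_nhdsLT (by norm_num)
        filter_upwards [this] with s hs k
        exact hle s hs.1.le hs.2 k)
    simpa using this
  · intro s hs0 hs1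
    exact Summable.of_norm_bounded hsum (hle s hs0 hs1)

/-- Uniform convergence in the discs `|z - s| ≤ q (1 - s)`. -/
theorem disc_tendsto (hT : DifferentiableOn ℂ T (ball 0 1))
    (hC : ∀ z ∈ ball (0 : ℂ) 1, (1 - ‖z‖) * ‖T z‖ ≤ C)
    (h0 : Tendsto (uu T 0) (𝓝[<] 1) (𝓝 c)) {q : ℝ} (hq0 : 0 ≤ q) (hq1 : q < 1) {ε : ℝ}
    (hε : 0 < ε) :
    ∃ s0 : ℝ, 0 ≤ s0 ∧ s0 < 1 ∧ ∀ s : ℝ, s0 ≤ s → s < 1 → ∀ z : ℂ, ‖z - s‖ ≤ q * (1 - s) →
      ‖(1 - z) * T z - c‖ ≤ ε := by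
  obtain ⟨h1, h2⟩ := err_tendsto hT hC h0 hq0 hq1
  have h3 : ∀ᶠ s : ℝ in 𝓝[<] (1 : ℝ), (∑' k, ‖uu T k s - c‖ * q ^ k) < ε / 2 ∧
      s ∈ Ioo (0 : ℝ) 1 := by
    refine (h1.eventually (gt_mem_nhds (by positivity))).and (Ioo_mem_nhdsLT (by norm_num))
  obtain ⟨l, hl, hl2⟩ := (mem_nhdsLT_iff_exists_Ioo_subset).1 h3
  refine ⟨max 0 ((l + 1) / 2), le_max_left _ _, ?_, fun s hs hs1 z hz => ?_⟩
  · rw [max_lt_iff]; constructor
    · norm_num
    · have : l < 1 := hl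
      linarith
  have hl1 : l < 1 := hl
  have hsl : s ∈ Ioo l 1 := by
    constructor
    · have := le_trans (le_max_right 0 ((l + 1) / 2)) hs
      linarith
    · exact hs1
  obtain ⟨h4, h5⟩ := hl2 hsl
  have hs0 : 0 ≤ s := h5.1.le
  have hpos : 0 < 1 - s := by linarith
  have hsc : (1 - (s : ℂ)) ≠ 0 := by
    rw [← Complex.ofReal_one, ← Complex.ofReal_sub, Complex.ofReal_ne_zero]; linarith
  have hns : ‖(1 - (s : ℂ))‖ = 1 - s := by
    rw [← Complex.ofReal_one, ← Complex.ofReal_sub, Complex.norm_real, Real.norm_eq_abs,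
      abs_of_pos hpos]
  set ζ : ℂ := (z - s) / (1 - s) with hζ
  have hζn : ‖ζ‖ ≤ q := by
    rw [hζ, norm_div, hns, div_le_iff₀ hpos]; exact hz
  have hζ1 : ‖ζ‖ < 1 := lt_of_le_of_lt hζn hq1
  have hball : ball (s : ℂ) (1 - s) ⊆ ball (0 : ℂ) 1 := by
    intro w hw
    rw [mem_ball, dist_eq_norm] at hw
    rw [mem_ball_zero_iff]
    have : ‖w‖ ≤ ‖w - s‖ + ‖(s : ℂ)‖ := by
      have := norm_add_le (w - s) (s : ℂ); simpa using this
    rw [Complex.norm_real, Real.norm_eq_abs, abs_of_nonneg hs0] at this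
    linarith
  have hzmem : z ∈ ball (s : ℂ) (1 - s) := by
    rw [mem_ball, dist_eq_norm]
    nlinarith
  have hsum := Complex.hasSum_taylorSeries_on_ball (r := (⟨1 - s, hpos.le⟩ : NNReal))
    (hT.mono hball) hzmem
  have hsum2 : HasSum (fun k => uu T k s * ζ ^ k) ((1 - (s : ℂ)) * T z) := by
    have := hsum.mul_left (1 - (s : ℂ))
    refine hs_congr (fun k => ?_) this
    have hf : (k.factorial : ℂ) ≠ 0 := by exact_mod_cast Nat.factorial_ne_zero k
    simp only [smul_eq_mul, uu, hζ, div_pow]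
    field_simp
    ring
  have hgeo : HasSum (fun k => c * ζ ^ k) (c * (1 - ζ)⁻¹) :=
    (hasSum_geometric_of_norm_lt_one hζ1).mul_left c
  have hdiff : HasSum (fun k => (uu T k s - c) * ζ ^ k) ((1 - (s : ℂ)) * T z - c * (1 - ζ)⁻¹) := by
    refine hs_congr (fun k => ?_) (hsum2.sub hgeo)
    ring
  have hn : ‖(1 - (s : ℂ)) * T z - c * (1 - ζ)⁻¹‖ ≤ ε / 2 := by
    rw [← hdiff.tsum_eq]
    have hs5 := h2 s hs0 hs1
    have hb : ∀ k, ‖(uu T k s - c) * ζ ^ k‖ ≤ ‖uu T k s - c‖ * q ^ k := by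
      intro k
      rw [norm_mul, norm_pow]
      exact mul_le_mul_of_nonneg_left (pow_le_pow_left₀ (norm_nonneg _) hζn k) (norm_nonneg _)
    refine le_trans (tsum_of_norm_bounded hs5.hasSum hb) h4.le
  have h1ζ : (1 - ζ) ≠ 0 := by
    intro h
    have : ζ = 1 := by linear_combination -h
    rw [this, norm_one] at hζ1
    exact lt_irrefl _ hζ1
  have e1 : (1 - z) = (1 - (s : ℂ)) * (1 - ζ) := by
    rw [hζ]; field_simp; ring
  have e2 : (1 - z) * T z - c = (1 - ζ) * ((1 - (s : ℂ)) * T z - c * (1 - ζ)⁻¹) := by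
    rw [e1]; field_simp
  rw [e2, norm_mul]
  have h6 : ‖(1 - ζ)‖ ≤ 2 := by
    refine le_trans (norm_sub_le _ _) ?_
    rw [norm_one]; linarith
  calc ‖(1 - ζ)‖ * ‖(1 - (s : ℂ)) * T z - c * (1 - ζ)⁻¹‖ ≤ 2 * (ε / 2) :=
        mul_le_mul h6 hn (norm_nonneg _) (by norm_num)
    _ = ε := by ring

end Pool.REG73
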