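import Pool.Agent.REG73.Base
import Pool.Agent.REG73.Sector2

/-!
# Sector asymptotics, part 3: the radial limit `(1-s) L''/L' → 4`
-/

set_option autoImplicit false

namespace Pool.REG73

open Complex Set Metric Filter Topology
open scoped ComplexConjugate

variable {L : ℂ → ℂ}

/-- the pre-Schwarzian -/
noncomputable def TT (L : ℂ → ℂ) (z : ℂ) : ℂ := deriv (deriv L) z / deriv L z

lemma TT_diff (h : A2 L) : DifferentiableOn ℂ (TT L) (ball 0 1) := by
  have hop : IsOpen (ball (0 : ℂ) 1) := isOpen_ball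
  exact ((h.dL.deriv hop).deriv hop).div (h.dL.deriv hop) h.ne

lemma TT_bound (h : A2 L) : ∀ z ∈ ball (0 : ℂ) 1, (1 - ‖z‖) * ‖TT L z‖ ≤ 8 := by
  intro z hz
  have hz1 : ‖z‖ < 1 := by simpa using hz
  have hb := h.bd z hz
  have hpos : 0 < 1 - ‖z‖ ^ 2 := by nlinarith [norm_nonneg z]
  have e1 : ((1 - ‖z‖ ^ 2 : ℝ) : ℂ) * TT L z =
      (((1 - ‖z‖ ^ 2 : ℝ) : ℂ) * (deriv (deriv L) z / deriv L z) - 2 * conj z) + 2 * conj z := by
    unfold TT; ring
  have h1 : (1 - ‖z‖ ^ 2) * ‖TT L z‖ ≤ 6 + 2 * ‖z‖ := by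
    have h2 : ‖((1 - ‖z‖ ^ 2 : ℝ) : ℂ) * TT L z‖ ≤ 6 + 2 * ‖z‖ := by
      rw [e1]
      refine le_trans (norm_add_le _ _) (add_le_add hb ?_)
      rw [norm_mul, Complex.norm_conj]
      norm_num
    rwa [norm_mul, Complex.norm_real, Real.norm_of_nonneg hpos.le] at h2
  have h3 : (1 - ‖z‖) * ‖TT L z‖ ≤ (1 - ‖z‖ ^ 2) * ‖TT L z‖ :=
    mul_le_mul_of_nonneg_right (by nlinarith [norm_nonneg z]) (norm_nonneg _)
  linarith

lemma uu_zero (T : ℂ → ℂ) (s : ℝ) : uu T 0 s = (1 - (s : ℂ)) * T s := by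
  unfold uu; simp

/-- `s(x) = 1 - exp (-x)` -/
noncomputable def sx (x : ℝ) : ℝ := 1 - Real.exp (-x)

lemma sx_mem {x : ℝ} (hx : 0 < x) : 0 < sx x ∧ sx x < 1 := by
  obtain ⟨e0, e1⟩ := exp_neg_mem hx
  unfold sx; constructor <;> linarith

lemma sx_hasDerivAt (x : ℝ) : HasDerivAt sx (Real.exp (-x)) x := by
  have h1 : HasDerivAt (fun y : ℝ => 1 - Real.exp (-y)) (Real.exp (-x)) x := by
    have := (((hasDerivAt_id x).neg).exp).const_sub 1
    simpa using this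
  exact h1

lemma sx_mono {x y : ℝ} (h : x ≤ y) : sx x ≤ sx y := by
  unfold sx
  have := Real.exp_le_exp.2 (neg_le_neg h)
  linarith

lemma sx_tendsto : Tendsto sx atTop (𝓝 1) := by
  have : Tendsto (fun x : ℝ => 1 - Real.exp (-x)) atTop (𝓝 (1 - 0)) :=
    tendsto_const_nhds.sub (Real.tendsto_exp_atBot.comp tendsto_neg_atTop_atBot)
  rw [sub_zero] at this
  exact this

/-- `W(x) = log (|L'(s)| (1-s)^4)` -/
noncomputable def Wx (L : ℂ → ℂ) (x : ℝ) : ℝ := lgr L 1 (sx x) + 2 * Real.log (1 + sx x)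

lemma Wx_hasDerivAt (h : A2 L) {x : ℝ} (hx : 0 < x) :
    HasDerivAt (Wx L) ((vx (TT L) 0 x).re - 4) x := by
  obtain ⟨s0, s1⟩ := sx_mem hx
  have a1 := (hasDerivAt_lgr h (e := 1) (by simp) s0.le s1).comp x (sx_hasDerivAt x)
  have p2 : (1 + sx x) ≠ 0 := by linarith
  have a2 : HasDerivAt (fun y => Real.log (1 + sx y)) (Real.exp (-x) / (1 + sx x)) x :=
    ((sx_hasDerivAt x).const_add 1).log p2
  have a3 := a1.add (a2.const_mul 2)
  refine a3.congr_deriv ?_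
  have e1 : vx (TT L) 0 x = ((Real.exp (-x) : ℝ) : ℂ) * TT L (sx x) := by
    unfold vx; rw [uu_zero]; unfold sx; push_cast; ring
  have e2 : Real.exp (-x) = 1 - sx x := by unfold sx; ring
  rw [e1, Complex.re_ofReal_mul, e2]
  simp only [mul_one, one_mul, TT]
  have p3 : (1 - sx x ^ 2) ≠ 0 := by
    have : (1 - sx x ^ 2) = (1 - sx x) * (1 + sx x) := by ring
    rw [this]; exact mul_ne_zero (by linarith) p2
  have p4 : (1 - sx x ^ 2) = (1 - sx x) * (1 + sx x) := by ring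
  have p5 : (1 - sx x) ≠ 0 := by linarith
  rw [p4]
  field_simp
  ring

/-- `|L'(s)|(1-s)^4` bounded below on the radius implies `(1-s) L''(s)/L'(s) → 4`. -/
theorem radial_limit (h : A2 L) {α : ℝ} (hα : 0 < α) (hg : ∀ t ∈ Ico (0 : ℝ) 1, α ≤ gr L 1 t) :
    Tendsto (uu (TT L) 0) (𝓝[<] 1) (𝓝 4) := by
  have e11 : ‖(1 : ℂ)‖ = 1 := by simp
  -- W converges
  have hanti : Antitone (fun x : ℝ => lgr L 1 (sx (max x 1))) := by
    intro x y hxy
    obtain ⟨a0, a1⟩ := sx_mem (lt_of_lt_of_le one_pos (le_max_right x 1))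
    obtain ⟨b0, b1⟩ := sx_mem (lt_of_lt_of_le one_pos (le_max_right y 1))
    exact lgr_anti h e11 ⟨a0.le, a1⟩ ⟨b0.le, b1⟩ (sx_mono (max_le_max hxy le_rfl))
  have hbdd : BddBelow (range (fun x : ℝ => lgr L 1 (sx (max x 1)))) := by
    refine ⟨Real.log α, ?_⟩
    rintro _ ⟨x, rfl⟩
    obtain ⟨a0, a1⟩ := sx_mem (lt_of_lt_of_le one_pos (le_max_right x 1))
    have h1 := hg _ ⟨a0.le, a1⟩
    rw [gr_eq h e11 a0.le a1] at h1
    have := Real.log_le_log hα h1
    rwa [Real.log_exp] at this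
  have hlim := tendsto_atTop_ciInf hanti hbdd
  set l0 := ⨅ x : ℝ, lgr L 1 (sx (max x 1)) with hl0
  have hlim2 : Tendsto (fun x => lgr L 1 (sx x)) atTop (𝓝 l0) := by
    refine hlim.congr' ?_
    filter_upwards [eventually_ge_atTop (1 : ℝ)] with x hx
    rw [max_eq_left hx]
  have hlog : Tendsto (fun x => 2 * Real.log (1 + sx x)) atTop (𝓝 (2 * Real.log (1 + 1))) := by
    refine Tendsto.const_mul 2 ?_
    refine (Real.continuousAt_log (by norm_num)).tendsto.comp ?_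
    exact sx_tendsto.const_add 1
  have hW : Tendsto (Wx L) atTop (𝓝 (l0 + 2 * Real.log (1 + 1))) := hlim2.add hlog
  have hWc : Tendsto (fun x => ((Wx L x : ℝ) : ℂ)) atTop
      (𝓝 ((l0 + 2 * Real.log (1 + 1) : ℝ) : ℂ)) :=
    (Complex.continuous_ofReal.tendsto _).comp hW
  obtain ⟨M, hM⟩ := vx_lip (TT_diff h) (TT_bound h) 0
  have hb := barbalat (v := fun x => ((Wx L x : ℝ) : ℂ))
    (w := fun x => (((vx (TT L) 0 x).re - 4 : ℝ) : ℂ)) (a := 0) (M := M)
    (fun x hx => (Wx_hasDerivAt h hx).ofReal_comp)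
    (fun x y hx hy => by
      rw [← Complex.ofReal_sub, Complex.norm_real, Real.norm_eq_abs]
      have e1 : (vx (TT L) 0 y).re - 4 - ((vx (TT L) 0 x).re - 4) =
          (vx (TT L) 0 y - vx (TT L) 0 x).re := by rw [Complex.sub_re]; ring
      rw [e1]
      exact le_trans (Complex.abs_re_le_norm _) (hM x y hx hy)) hWc
  have hre : Tendsto (fun x => (vx (TT L) 0 x).re - 4) atTop (𝓝 0) := by
    have h1 := (Complex.continuous_re.tendsto _).comp hb
    rw [Complex.zero_re] at h1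
    refine h1.congr (fun x => ?_)
    simp only [Function.comp, Complex.ofReal_re]
  have hre4 : Tendsto (fun x => (vx (TT L) 0 x).re) atTop (𝓝 4) := by
    have := hre.add_const 4
    simpa using this
  -- imaginary part
  have him : ∀ x : ℝ, 0 < x → ((vx (TT L) 0 x).im) ^ 2 ≤
      36 / (1 + sx x) ^ 2 - ((vx (TT L) 0 x).re - 2 * sx x / (1 + sx x)) ^ 2 := by
    intro x hx
    obtain ⟨s0, s1⟩ := sx_mem hx
    have hm : (sx x : ℂ) ∈ ball (0 : ℂ) 1 := real_mem_ball s0.le s1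
    have hb := h.bd _ hm
    have hn : ‖(sx x : ℂ)‖ = sx x := by rw [Complex.norm_real, Real.norm_of_nonneg s0.le]
    rw [hn, Complex.conj_ofReal] at hb
    have e1 : vx (TT L) 0 x = ((1 - sx x : ℝ) : ℂ) * TT L (sx x) := by
      unfold vx; rw [uu_zero]; unfold sx; push_cast; ring
    have e2 : ((1 - sx x ^ 2 : ℝ) : ℂ) * (deriv (deriv L) (sx x : ℂ) / deriv L (sx x : ℂ)) -
        2 * (sx x : ℂ) = ((1 + sx x : ℝ) : ℂ) * (vx (TT L) 0 x - ((2 * sx x / (1 + sx x) : ℝ) : ℂ)) := by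
      rw [e1]
      have : ((1 + sx x : ℝ) : ℂ) ≠ 0 := by exact_mod_cast (by linarith : (1 + sx x) ≠ 0)
      have h3 : (1 + (sx x : ℂ)) ≠ 0 := by simpa using this
      unfold TT
      push_cast
      field_simp
      ring
    rw [e2, norm_mul, Complex.norm_real, Real.norm_of_nonneg (by linarith)] at hb
    set v := vx (TT L) 0 x
    set a : ℝ := 2 * sx x / (1 + sx x)
    have h4 : ‖v - (a : ℂ)‖ ^ 2 = (v.re - a) ^ 2 + v.im ^ 2 := by
      rw [← Complex.normSq_eq_norm_sq, Complex.normSq_apply]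
      simp; ring
    have hp : 0 < 1 + sx x := by linarith
    have h5 : ‖v - (a : ℂ)‖ ≤ 6 / (1 + sx x) := by
      rw [le_div_iff₀ hp]; linarith
    have h6 : ‖v - (a : ℂ)‖ ^ 2 ≤ (6 / (1 + sx x)) ^ 2 := pow_le_pow_left₀ (norm_nonneg _) h5 2
    rw [h4, div_pow] at h6
    norm_num at h6
    linarith
  have hrhs : Tendsto (fun x => 36 / (1 + sx x) ^ 2 -
      ((vx (TT L) 0 x).re - 2 * sx x / (1 + sx x)) ^ 2) atTop (𝓝 0) := by
    have h1 : Tendsto (fun x => 1 + sx x) atTop (𝓝 (1 + 1)) := sx_tendsto.const_add 1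
    have h2 : Tendsto (fun x => 36 / (1 + sx x) ^ 2) atTop (𝓝 (36 / (1 + 1) ^ 2)) :=
      tendsto_const_nhds.div (h1.pow 2) (by norm_num)
    have h3 : Tendsto (fun x => 2 * sx x / (1 + sx x)) atTop (𝓝 (2 * 1 / (1 + 1))) :=
      (sx_tendsto.const_mul 2).div h1 (by norm_num)
    have h4 := h2.sub ((hre4.sub h3).pow 2)
    norm_num at h4
    exact h4
  have him0 : Tendsto (fun x => ((vx (TT L) 0 x).im) ^ 2) atTop (𝓝 0) := by
    refine tendsto_of_tendsto_of_tendsto_of_le_of_le' tendsto_const_nhds hrhs ?_ ?_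
    · filter_upwards with x; positivity
    · filter_upwards [eventually_gt_atTop (0 : ℝ)] with x hx
      exact him x hx
  have hv : Tendsto (vx (TT L) 0) atTop (𝓝 4) := by
    rw [tendsto_iff_norm_sub_tendsto_zero]
    have h1 : Tendsto (fun x => ((vx (TT L) 0 x).re - 4) ^ 2 + ((vx (TT L) 0 x).im) ^ 2) atTop
        (𝓝 (0 ^ 2 + 0)) := (hre.pow 2).add him0
    have h2 : Tendsto (fun x => Real.sqrt (((vx (TT L) 0 x).re - 4) ^ 2 +
        ((vx (TT L) 0 x).im) ^ 2)) atTop (𝓝 0) := by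
      have h3 := (Real.continuous_sqrt.tendsto _).comp h1
      norm_num at h3
      exact h3
    refine h2.congr (fun x => ?_)
    have h4 : ‖vx (TT L) 0 x - 4‖ ^ 2 = ((vx (TT L) 0 x).re - 4) ^ 2 + (vx (TT L) 0 x).im ^ 2 := by
      rw [← Complex.normSq_eq_norm_sq, Complex.normSq_apply]
      simp; ring
    rw [← h4, Real.sqrt_sq (norm_nonneg _)]
  have h9 := hv.comp tendsto_neg_log
  refine h9.congr' ?_
  filter_upwards [self_mem_nhdsWithin] with s hs
  have hs' : (0 : ℝ) < 1 - s := sub_pos.2 (mem_Iio.1 hs)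
  simp only [Function.comp, vx, neg_neg]
  rw [Real.exp_log hs', sub_sub_cancel]

end Pool.REG73
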