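import Pool.Agent.REG73.Sector3

/-!
# Sector asymptotics, part 4: `L'`, `L` in Stolz sectors at `1`

`Sec κ δ = {z ≠ 1 : |1 - z| < δ, κ |1 - z| ≤ Re (1 - z)}`.
-/

set_option autoImplicit false

namespace Pool.REG73

open Complex Set Metric Filter Topology
open scoped ComplexConjugate

/-- Stolz sector at `1`. -/
def Sec (κ δ : ℝ) : Set ℂ := {z | z ≠ 1 ∧ ‖1 - z‖ < δ ∧ κ * ‖1 - z‖ ≤ (1 - z).re}

variable {κ δ : ℝ} {z : ℂ}

lemma sec_mono {δ' : ℝ} (h : z ∈ Sec κ δ) (hd : δ ≤ δ') : z ∈ Sec κ δ' :=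
  ⟨h.1, lt_of_lt_of_le h.2.1 hd, h.2.2⟩

lemma sec_pos (h : z ∈ Sec κ δ) : 0 < ‖1 - z‖ := norm_pos_iff.2 (sub_ne_zero.2 (Ne.symm h.1))

lemma normSq_one_sub (z : ℂ) : ‖z‖ ^ 2 = 1 - 2 * (1 - z).re + ‖1 - z‖ ^ 2 := by
  rw [← Complex.normSq_eq_norm_sq, ← Complex.normSq_eq_norm_sq, Complex.normSq_apply,
    Complex.normSq_apply]
  simp
  ring

/-- In the sector, `1 - |z| ≥ (κ/2) |1 - z|`. -/
lemma sec_osn (hδ : δ ≤ κ) (h : z ∈ Sec κ δ) :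
    κ / 2 * ‖1 - z‖ ≤ 1 - ‖z‖ := by
  have h1 := normSq_one_sub z
  have h2 := h.2.2
  have h3 : ‖1 - z‖ < κ := lt_of_lt_of_le h.2.1 hδ
  have hp := sec_pos h
  have h4 : ‖z‖ ^ 2 ≤ 1 - κ * ‖1 - z‖ := by nlinarith
  have hκ : 0 < κ := lt_trans hp h3
  have h5 : 0 < κ * ‖1 - z‖ := mul_pos hκ hp
  have hz1 : ‖z‖ < 1 := by
    by_contra hcon
    push Not at hcon
    nlinarith [norm_nonneg z]
  have h6 : ‖z‖ ^ 2 ≤ ‖z‖ := by nlinarith [norm_nonneg z]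
  nlinarith [norm_nonneg z, sq_nonneg (1 - ‖z‖)]

lemma sec_mem (hδ : δ ≤ κ) (h : z ∈ Sec κ δ) : z ∈ ball (0 : ℂ) 1 := by
  rw [mem_ball_zero_iff]
  have h1 := sec_osn hδ h
  have h2 : 0 < κ := lt_of_lt_of_le (lt_trans (sec_pos h) h.2.1) hδ
  have := mul_pos (half_pos h2) (sec_pos h)
  linarith

/-- real points -/
lemma real_mem_Sec {s : ℝ} (hκ : κ ≤ 1) (hs : s < 1) (hd : 1 - s < δ) : (s : ℂ) ∈ Sec κ δ := by
  have hp : 0 < 1 - s := by linarith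
  have e1 : (1 - (s : ℂ)) = ((1 - s : ℝ) : ℂ) := by push_cast; ring
  have hn : ‖(1 - (s : ℂ))‖ = 1 - s := by rw [e1, Complex.norm_real, Real.norm_of_nonneg hp.le]
  refine ⟨?_, ?_, ?_⟩
  · intro h
    have : s = 1 := by exact_mod_cast h
    linarith
  · rw [hn]; exact hd
  · rw [hn, e1, Complex.ofReal_re]; nlinarith

/-- the disc covering a point of the sector -/
lemma sec_disc (hκ0 : 0 < κ) (h : z ∈ Sec κ δ) :
    ∃ s : ℝ, s < 1 ∧ 1 - s ≤ ‖1 - z‖ / κ ∧ ‖z - s‖ ≤ Real.sqrt (1 - κ ^ 2) * (1 - s) := by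
  have hp := sec_pos h
  have h2 := h.2.2
  have hre : 0 < (1 - z).re := lt_of_lt_of_le (mul_pos hκ0 hp) h2
  have hκ1 : κ ≤ 1 := by
    have := Complex.re_le_norm (1 - z)
    by_contra hcon
    push Not at hcon
    nlinarith
  set x : ℝ := ‖1 - z‖ ^ 2 / (1 - z).re with hx
  have hxpos : 0 < x := by positivity
  refine ⟨1 - x, by linarith, ?_, ?_⟩
  · rw [sub_sub_cancel, hx, div_le_div_iff₀ hre hκ0]
    nlinarith
  · rw [sub_sub_cancel]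
    have e1 : z - ((1 - x : ℝ) : ℂ) = (x : ℂ) - (1 - z) := by push_cast; ring
    have e2 : ‖z - ((1 - x : ℝ) : ℂ)‖ ^ 2 = x ^ 2 - 2 * x * (1 - z).re + ‖1 - z‖ ^ 2 := by
      rw [e1, ← Complex.normSq_eq_norm_sq, ← Complex.normSq_eq_norm_sq, Complex.normSq_apply,
        Complex.normSq_apply]
      simp
      ring
    have e3 : x * (1 - z).re = ‖1 - z‖ ^ 2 := by rw [hx]; field_simp
    have e4 : ‖z - ((1 - x : ℝ) : ℂ)‖ ^ 2 = x ^ 2 - ‖1 - z‖ ^ 2 := by rw [e2]; linarith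
    have e5 : κ ^ 2 * x ^ 2 ≤ ‖1 - z‖ ^ 2 := by
      have : κ * x ≤ ‖1 - z‖ := by
        rw [hx, ← mul_div_assoc, div_le_iff₀ hre]
        nlinarith
      have h0 : 0 ≤ κ * x := by positivity
      nlinarith
    have e6 : ‖z - ((1 - x : ℝ) : ℂ)‖ ^ 2 ≤ (Real.sqrt (1 - κ ^ 2) * x) ^ 2 := by
      rw [mul_pow, Real.sq_sqrt (by nlinarith), e4]
      linarith
    exact le_of_sq_le_sq₀' e6 (by positivity)
where
  le_of_sq_le_sq₀' {a b : ℝ} (h : a ^ 2 ≤ b ^ 2) (hb : 0 ≤ b) : a ≤ b :=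
    abs_le_of_sq_le_sq' h hb |>.2

variable {L : ℂ → ℂ}

/-- `(1-z) L''/L' → 4` uniformly in Stolz sectors. -/
theorem T_sector (h : A2 L) {α : ℝ} (hα : 0 < α) (hg : ∀ t ∈ Ico (0 : ℝ) 1, α ≤ gr L 1 t)
    (hκ0 : 0 < κ) {ε : ℝ} (hε : 0 < ε) :
    ∃ δ : ℝ, 0 < δ ∧ δ ≤ κ ∧ ∀ z ∈ Sec κ δ, ‖(1 - z) * TT L z - 4‖ ≤ ε := by
  by_cases hκ1 : κ ≤ 1
  · have hq : Real.sqrt (1 - κ ^ 2) < 1 := by
      rw [Real.sqrt_lt' one_pos]; nlinarith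
    obtain ⟨s0, h0, h1, h2⟩ := disc_tendsto (TT_diff h) (TT_bound h) (radial_limit h hα hg)
      (Real.sqrt_nonneg _) hq hε
    refine ⟨min κ (κ * (1 - s0)), ?_, min_le_left _ _, fun z hz => ?_⟩
    · refine lt_min hκ0 (mul_pos hκ0 (by linarith))
    · obtain ⟨s, hs1, hs2, hs3⟩ := sec_disc hκ0 hz
      refine h2 s ?_ hs1 z hs3
      have h3 : ‖1 - z‖ < κ * (1 - s0) := lt_of_lt_of_le hz.2.1 (min_le_right _ _)
      have h4 : ‖1 - z‖ / κ < 1 - s0 := by rw [div_lt_iff₀ hκ0]; linarith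
      linarith
  · refine ⟨κ, hκ0, le_rfl, fun z hz => ?_⟩
    exfalso
    have h1 := Complex.re_le_norm (1 - z)
    have h2 := hz.2.2
    have h3 := sec_pos hz
    push Not at hκ1
    nlinarith

/-- `Q(z) = L'(z) (1-z)^4` -/
noncomputable def QQ (L : ℂ → ℂ) (z : ℂ) : ℂ := deriv L z * (1 - z) ^ 4

lemma QQ_bound (h : A2 L) (hz : z ∈ Sec κ κ) : ‖QQ L z‖ ≤ 64 * ‖deriv L 0‖ / κ ^ 4 := by
  have hp := sec_pos hz
  have hκ0 : 0 < κ := lt_trans hp hz.2.1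
  have h1 := growth_le h (sec_mem le_rfl hz)
  have h2 := sec_osn le_rfl hz
  have h3 : (κ / 2 * ‖1 - z‖) ^ 4 ≤ (1 - ‖z‖) ^ 4 := pow_le_pow_left₀ (by positivity) h2 4
  unfold QQ
  rw [norm_mul, norm_pow, le_div_iff₀ (by positivity)]
  have h4 : ‖deriv L z‖ * (κ / 2 * ‖1 - z‖) ^ 4 ≤ 4 * ‖deriv L 0‖ :=
    le_trans (mul_le_mul_of_nonneg_left h3 (norm_nonneg _)) h1
  have e1 : ‖deriv L z‖ * (κ / 2 * ‖1 - z‖) ^ 4 = ‖deriv L z‖ * ‖1 - z‖ ^ 4 * κ ^ 4 / 16 := by ring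
  rw [e1] at h4
  linarith

lemma QQ_hasDerivAt (h : A2 L) (hz : z ∈ ball (0 : ℂ) 1) :
    HasDerivAt (QQ L) (deriv L z * (1 - z) ^ 3 * ((1 - z) * TT L z - 4)) z := by
  have a1 := hasDerivAt_deriv h hz
  have a2 : HasDerivAt (fun w : ℂ => (1 - w)) (-1) z := by
    simpa using (hasDerivAt_id z).const_sub 1
  have a3 : HasDerivAt (QQ L) (deriv (deriv L) z * (1 - z) ^ 4 +
      deriv L z * (((4 : ℕ) : ℂ) * (1 - z) ^ 3 * (-1))) z := a1.mul (a2.pow 4)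
  refine a3.congr_deriv ?_
  have hne := h.ne z hz
  unfold TT
  field_simp
  push_cast
  ring

/-- The sector is convex at comparable distance: segment estimate. -/
lemma seg_Sec {a : ℝ} {z w : ℂ} (hz : z ∈ Sec κ δ) (hw : w ∈ Sec κ δ) (ha0 : 0 < a)
    (hza : a ≤ ‖1 - z‖) (hwa : a ≤ ‖1 - w‖) (hκ0 : 0 < κ) :
    ∀ ζ ∈ segment ℝ z w, ζ ∈ Sec κ δ ∧ κ * a ≤ ‖1 - ζ‖ := by
  rintro ζ ⟨p, q, hp, hq, hpq, rfl⟩
  have e1 : (1 : ℂ) - (p • z + q • w) = p • (1 - z) + q • (1 - w) := by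
    have : ((p : ℂ) + q) = 1 := by exact_mod_cast hpq
    simp only [Complex.real_smul]
    linear_combination (-(1 : ℂ)) * this
  have hre : ((1 : ℂ) - (p • z + q • w)).re = p * (1 - z).re + q * (1 - w).re := by
    rw [e1]; simp
  have hn : ‖(1 : ℂ) - (p • z + q • w)‖ ≤ p * ‖1 - z‖ + q * ‖1 - w‖ := by
    rw [e1]
    refine le_trans (norm_add_le _ _) ?_
    rw [norm_smul, norm_smul, Real.norm_of_nonneg hp, Real.norm_of_nonneg hq]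
  have hge : κ * a ≤ ((1 : ℂ) - (p • z + q • w)).re := by
    rw [hre]
    have h1 : κ * a ≤ (1 - z).re := le_trans (mul_le_mul_of_nonneg_left hza hκ0.le) hz.2.2
    have h2 : κ * a ≤ (1 - w).re := le_trans (mul_le_mul_of_nonneg_left hwa hκ0.le) hw.2.2
    have h3 := mul_le_mul_of_nonneg_left h1 hp
    have h4 := mul_le_mul_of_nonneg_left h2 hq
    have h5 : κ * a = p * (κ * a) + q * (κ * a) := by rw [← add_mul, hpq, one_mul]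
    linarith
  have hge2 : κ * a ≤ ‖(1 : ℂ) - (p • z + q • w)‖ := le_trans hge (Complex.re_le_norm _)
  refine ⟨⟨?_, ?_, ?_⟩, hge2⟩
  · intro hcon
    rw [hcon, sub_self, norm_zero] at hge2
    have := mul_pos hκ0 ha0
    linarith
  · refine lt_of_le_of_lt hn ?_
    have h1 := hz.2.1
    have h2 := hw.2.1
    rcases eq_or_lt_of_le hp with h | h
    · rw [← h] at hpq ⊢
      rw [zero_add] at hpq
      rw [hpq]; linarith
    · nlinarith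
  · rw [hre]
    have h1 := hz.2.2
    have h2 := hw.2.2
    nlinarith

/-- `L'(z)(1-z)^4` varies slowly in the sector. -/
theorem QQ_slow (h : A2 L) {α : ℝ} (hα : 0 < α) (hg : ∀ t ∈ Ico (0 : ℝ) 1, α ≤ gr L 1 t)
    (hκ0 : 0 < κ) {Λ : ℝ} (hΛ : 1 ≤ Λ) {ε : ℝ} (hε : 0 < ε) :
    ∃ δ : ℝ, 0 < δ ∧ δ ≤ κ ∧ ∀ z ∈ Sec κ δ, ∀ w ∈ Sec κ δ, ‖1 - z‖ ≤ Λ * ‖1 - w‖ →
      ‖1 - w‖ ≤ Λ * ‖1 - z‖ → ‖QQ L z - QQ L w‖ ≤ ε := by
  set C : ℝ := 64 * ‖deriv L 0‖ / κ ^ 4 with hC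
  have hC0 : 0 ≤ C := by positivity
  set η : ℝ := ε * κ / (4 * Λ * (C + 1)) with hη
  have hηpos : 0 < η := by positivity
  obtain ⟨δ, hδ0, hδ1, hδ2⟩ := T_sector h hα hg hκ0 hηpos
  refine ⟨δ, hδ0, hδ1, fun z hz w hw hzw hwz => ?_⟩
  set a : ℝ := min ‖1 - z‖ ‖1 - w‖ with ha
  have ha0 : 0 < a := lt_min (sec_pos hz) (sec_pos hw)
  have hseg := seg_Sec hz hw ha0 (min_le_left _ _) (min_le_right _ _) hκ0
  have hbd : ∀ ζ ∈ segment ℝ z w,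
      ‖deriv L ζ * (1 - ζ) ^ 3 * ((1 - ζ) * TT L ζ - 4)‖ ≤ C / (κ * a) * η := by
    intro ζ hζ
    obtain ⟨h1, h2⟩ := hseg ζ hζ
    have h3 := QQ_bound h (sec_mono h1 hδ1)
    have h4 := hδ2 ζ h1
    have h5 : ‖deriv L ζ * (1 - ζ) ^ 3‖ = ‖QQ L ζ‖ / ‖1 - ζ‖ := by
      have : ‖1 - ζ‖ ≠ 0 := (sec_pos h1).ne'
      unfold QQ
      rw [norm_mul, norm_mul, norm_pow, norm_pow]
      field_simp
    rw [norm_mul, h5]
    refine mul_le_mul ?_ h4 (norm_nonneg _) (by positivity)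
    refine div_le_div₀ hC0 h3 (by positivity) h2
  have hmv := Convex.norm_image_sub_le_of_norm_hasDerivWithin_le (f := QQ L)
    (f' := fun ζ => deriv L ζ * (1 - ζ) ^ 3 * ((1 - ζ) * TT L ζ - 4)) (s := segment ℝ z w)
    (C := C / (κ * a) * η)
    (fun ζ hζ => (QQ_hasDerivAt h (sec_mem hδ1 (hseg ζ hζ).1)).hasDerivWithinAt) hbd
    (convex_segment z w) (left_mem_segment ℝ z w) (right_mem_segment ℝ z w)
  rw [norm_sub_rev]
  refine le_trans hmv ?_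
  have hzw1 : ‖w - z‖ ≤ 2 * Λ * a := by
    have e1 : w - z = (1 - z) - (1 - w) := by ring
    rw [e1]
    refine le_trans (norm_sub_le _ _) ?_
    have b1 : ‖1 - z‖ ≤ Λ * a := by
      rw [ha]
      rcases min_cases ‖1 - z‖ ‖1 - w‖ with ⟨h1, _⟩ | ⟨h1, _⟩
      · rw [h1]; nlinarith [norm_nonneg (1 - z)]
      · rw [h1]; exact hzw
    have b2 : ‖1 - w‖ ≤ Λ * a := by
      rw [ha]
      rcases min_cases ‖1 - z‖ ‖1 - w‖ with ⟨h1, _⟩ | ⟨h1, _⟩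
      · rw [h1]; exact hwz
      · rw [h1]; nlinarith [norm_nonneg (1 - w)]
    linarith
  calc C / (κ * a) * η * ‖w - z‖ ≤ C / (κ * a) * η * (2 * Λ * a) :=
        mul_le_mul_of_nonneg_left hzw1 (by positivity)
    _ = ε * (C / (2 * (C + 1))) := by rw [hη]; field_simp; ring
    _ ≤ ε * 1 := by
        refine mul_le_mul_of_nonneg_left ?_ hε.le
        rw [div_le_one (by positivity)]; linarith
    _ = ε := mul_one _

/-- The limit of `|L'(s)| (1-s)^4` on the radius. -/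
theorem QQ_radial (h : A2 L) {α : ℝ} (hg : ∀ t ∈ Ico (0 : ℝ) 1, α ≤ gr L 1 t) :
    ∃ a : ℝ, 4 * α ≤ a ∧ Tendsto (fun s : ℝ => gr L 1 s) (𝓝[<] 1) (𝓝 (a / 4)) ∧
      Tendsto (fun s : ℝ => ‖QQ L s‖) (𝓝[<] 1) (𝓝 a) := by
  have e11 : ‖(1 : ℂ)‖ = 1 := by simp
  have hanti := growth_anti h e11
  have hlim : ∃ l : ℝ, α ≤ l ∧ Tendsto (fun s : ℝ => gr L 1 s) (𝓝[<] 1) (𝓝 l) := by
    have hbdd : BddBelow (gr L 1 '' Ico (0 : ℝ) 1) := ⟨α, by rintro _ ⟨t, ht, rfl⟩; exact hg t ht⟩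
    refine ⟨sInf (gr L 1 '' Ico (0 : ℝ) 1), ?_, ?_⟩
    · refine le_csInf ⟨_, ⟨0, by simp, rfl⟩⟩ ?_
      rintro _ ⟨t, ht, rfl⟩; exact hg t ht
    · rw [Metric.tendsto_nhdsWithin_nhds]
      intro ε hε
      obtain ⟨_, ⟨t, ht, rfl⟩, hlt⟩ := exists_lt_of_csInf_lt
        (s := gr L 1 '' Ico (0 : ℝ) 1) ⟨_, ⟨0, by simp, rfl⟩⟩
        (show sInf (gr L 1 '' Ico (0 : ℝ) 1) < sInf (gr L 1 '' Ico (0 : ℝ) 1) + ε by linarith)
      refine ⟨1 - t, by linarith [ht.2], fun {s} hs hd => ?_⟩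
      rw [Real.dist_eq] at hd ⊢
      have hs1 : s < 1 := hs
      have hts : t ≤ s := by
        rw [abs_lt] at hd; linarith [hd.1]
      have hs0 : s ∈ Ico (0 : ℝ) 1 := ⟨le_trans ht.1 hts, hs1⟩
      have h1 := hanti ht hs0 hts
      have h2 : sInf (gr L 1 '' Ico (0 : ℝ) 1) ≤ gr L 1 s := csInf_le hbdd ⟨s, hs0, rfl⟩
      rw [abs_lt]; constructor <;> linarith
  obtain ⟨l, hl, hl2⟩ := hlim
  refine ⟨4 * l, by linarith, ?_, ?_⟩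
  · have : 4 * l / 4 = l := by ring
    rw [this]; exact hl2
  · have h1 : Tendsto (fun s : ℝ => gr L 1 s * (1 + s) ^ 2) (𝓝[<] 1) (𝓝 (l * (1 + 1) ^ 2)) := by
      refine hl2.mul ?_
      have : Tendsto (fun s : ℝ => (1 + s) ^ 2) (𝓝 1) (𝓝 ((1 + 1) ^ 2)) :=
        ((continuous_const.add continuous_id).pow 2).tendsto 1
      exact this.mono_left nhdsWithin_le_nhds
    have e1 : l * (1 + 1) ^ 2 = 4 * l := by ring
    rw [e1] at h1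
    refine h1.congr' ?_
    filter_upwards [self_mem_nhdsWithin, Ioo_mem_nhdsLT (show (0 : ℝ) < 1 by norm_num)] with s _ hs2
    have hp : 0 < 1 - s := by linarith [hs2.2]
    have hp2 : 0 < 1 + s := by linarith [hs2.1]
    have e2 : (1 - (s : ℂ)) = ((1 - s : ℝ) : ℂ) := by push_cast; ring
    unfold gr QQ
    rw [norm_mul, norm_pow, e2, Complex.norm_real, Real.norm_of_nonneg hp.le, mul_one]
    field_simp

/-- `|L'(z)||1-z|^4 → a` in the sector. -/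
theorem QQ_norm_sector (h : A2 L) {α a : ℝ} (hα : 0 < α) (hg : ∀ t ∈ Ico (0 : ℝ) 1, α ≤ gr L 1 t)
    (ha : Tendsto (fun s : ℝ => ‖QQ L s‖) (𝓝[<] 1) (𝓝 a)) (hκ0 : 0 < κ) (hκ1 : κ ≤ 1) {ε : ℝ}
    (hε : 0 < ε) :
    ∃ δ : ℝ, 0 < δ ∧ δ ≤ κ ∧ ∀ z ∈ Sec κ δ, |‖QQ L z‖ - a| ≤ ε := by
  obtain ⟨δ1, h1, h2, h3⟩ := QQ_slow h hα hg hκ0 (le_refl (1 : ℝ)) (half_pos hε)
  rw [Metric.tendsto_nhdsWithin_nhds] at ha
  obtain ⟨δ2, h4, h5⟩ := ha (ε / 2) (half_pos hε)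
  refine ⟨min δ1 δ2, lt_min h1 h4, le_trans (min_le_left _ _) h2, fun z hz => ?_⟩
  set s : ℝ := 1 - ‖1 - z‖ with hs
  have hs1 : s < 1 := by have := sec_pos hz; linarith
  have hsS : (s : ℂ) ∈ Sec κ δ1 := by
    refine real_mem_Sec hκ1 hs1 ?_
    rw [hs, sub_sub_cancel]
    exact lt_of_lt_of_le hz.2.1 (min_le_left _ _)
  have hns : ‖(1 - (s : ℂ))‖ = ‖1 - z‖ := by
    have e1 : (1 - (s : ℂ)) = ((1 - s : ℝ) : ℂ) := by push_cast; ring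
    rw [e1, Complex.norm_real, hs, sub_sub_cancel, norm_norm]
  have h6 := h3 z (sec_mono hz (min_le_left _ _)) s hsS (by rw [hns]; linarith) (by rw [hns]; linarith)
  have h7 := h5 (x := s) hs1 (by
    rw [Real.dist_eq, hs]
    have : 1 - ‖1 - z‖ - 1 = -‖1 - z‖ := by ring
    rw [this, abs_neg, abs_norm]
    exact lt_of_lt_of_le hz.2.1 (min_le_right _ _))
  rw [Real.dist_eq] at h7
  have h8 := abs_norm_sub_norm_le (QQ L z) (QQ L s)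
  calc |‖QQ L z‖ - a| ≤ |‖QQ L z‖ - ‖QQ L s‖| + |‖QQ L s‖ - a| := abs_sub_le _ _ _
    _ ≤ ε / 2 + ε / 2 := add_le_add (le_trans h8 h6) h7.le
    _ = ε := by ring

end Pool.REG73
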