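import Pool.Agent.REG73.Sector4

/-!
# Sector asymptotics, part 5: `(1-z)^3 L(z) - (1-z)^4 L'(z) / 3 → 0` in Stolz sectors at `1`
-/

set_option autoImplicit false

namespace Pool.REG73

open Complex Set Metric Filter Topology
open scoped ComplexConjugate

variable {L : ℂ → ℂ} {κ δ : ℝ} {z : ℂ}

/-- `e(z) = (1-z) L'(z) / 3 - L(z)` -/
noncomputable def ee (L : ℂ → ℂ) (z : ℂ) : ℂ := (1 - z) * deriv L z / 3 - L z

lemma ee_hasDerivAt (h : A2 L) (hz : z ∈ ball (0 : ℂ) 1) :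
    HasDerivAt (ee L) (deriv L z / 3 * ((1 - z) * TT L z - 4)) z := by
  have hop : IsOpen (ball (0 : ℂ) 1) := isOpen_ball
  have a1 := hasDerivAt_deriv h hz
  have a2 : HasDerivAt (fun w : ℂ => (1 - w)) (-1) z := by
    simpa using (hasDerivAt_id z).const_sub 1
  have a0 : HasDerivAt L (deriv L z) z :=
    ((h.dL z hz).differentiableAt (hop.mem_nhds hz)).hasDerivAt
  have a3 := ((a2.mul a1).div_const 3).sub a0
  refine a3.congr_deriv ?_
  have hne := h.ne z hz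
  unfold TT
  field_simp
  ring

/-- radial part -/
lemma ee_radial (h : A2 L) {α : ℝ} (hα : 0 < α) (hg : ∀ t ∈ Ico (0 : ℝ) 1, α ≤ gr L 1 t)
    {η : ℝ} (hη : 0 < η) :
    ∃ s0 : ℝ, 0 ≤ s0 ∧ s0 < 1 ∧ ∀ s : ℝ, s0 ≤ s → s < 1 →
      ‖ee L s‖ ≤ ‖ee L s0‖ + η * (4 * ‖deriv L 0‖) / 9 * ((1 - s) ^ 3)⁻¹ := by
  obtain ⟨δ, h1, h2, h3⟩ := T_sector h hα hg (κ := 1) one_pos hη
  refine ⟨1 - δ / 2, by linarith, by linarith, fun s hs hs1 => ?_⟩
  set s0 : ℝ := 1 - δ / 2 with hs0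
  set C : ℝ := 4 * ‖deriv L 0‖ with hC
  have hmem : ∀ x ∈ Icc s0 s, (x : ℂ) ∈ Sec 1 δ := fun x hx =>
    real_mem_Sec le_rfl (lt_of_le_of_lt hx.2 hs1) (by have := hx.1; linarith)
  have hball : ∀ x ∈ Icc s0 s, (x : ℂ) ∈ ball (0 : ℂ) 1 := fun x hx => sec_mem h2 (hmem x hx)
  have hder : ∀ x ∈ Icc s0 s, HasDerivAt (fun y : ℝ => ee L (y : ℂ))
      (deriv L x / 3 * ((1 - (x : ℂ)) * TT L x - 4)) x := fun x hx =>
    (ee_hasDerivAt h (hball x hx)).comp_ofReal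
  have hB : ∀ x ∈ Icc s0 s, HasDerivAt (fun y : ℝ => ‖ee L s0‖ + η * C / 9 * ((1 - y) ^ 3)⁻¹)
      (η * C / 3 * ((1 - x) ^ 4)⁻¹) x := by
    intro x hx
    have hp : 0 < 1 - x := by linarith [hx.2]
    have b1 : HasDerivAt (fun y : ℝ => (1 - y)) (-1) x := by
      simpa using (hasDerivAt_id x).const_sub 1
    have b2 := ((b1.pow 3).inv (pow_pos hp 3).ne').const_mul (η * C / 9)
    have b3 := b2.const_add ‖ee L s0‖
    refine b3.congr_deriv ?_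
    simp only [Pi.pow_apply]
    field_simp
    push_cast
    ring
  have hbound : ∀ x ∈ Ico s0 s, ‖deriv L x / 3 * ((1 - (x : ℂ)) * TT L x - 4)‖ ≤
      η * C / 3 * ((1 - x) ^ 4)⁻¹ := by
    intro x hx
    have hx' : x ∈ Icc s0 s := ⟨hx.1, hx.2.le⟩
    have hp : 0 < 1 - x := by linarith [hx.2]
    have hx0 : 0 ≤ x := by have := hx.1; linarith
    have c1 := growth_le h (hball x hx')
    have c2 := h3 x (hmem x hx')
    rw [Complex.norm_real, Real.norm_of_nonneg hx0] at c1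
    have c3 : ‖deriv L (x : ℂ)‖ ≤ C * ((1 - x) ^ 4)⁻¹ := by
      rw [← div_eq_mul_inv, le_div_iff₀ (by positivity)]; exact c1
    rw [norm_mul, norm_div]
    have e3 : ‖(3 : ℂ)‖ = 3 := by simp
    rw [e3]
    calc ‖deriv L (x : ℂ)‖ / 3 * ‖(1 - (x : ℂ)) * TT L x - 4‖
        ≤ (C * ((1 - x) ^ 4)⁻¹) / 3 * η :=
          mul_le_mul (by linarith) c2 (norm_nonneg _) (by positivity)
      _ = η * C / 3 * ((1 - x) ^ 4)⁻¹ := by ring
  have hfin := image_norm_le_of_norm_deriv_right_le_deriv_boundary'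
    (f := fun y : ℝ => ee L (y : ℂ))
    (f' := fun x : ℝ => deriv L (x : ℂ) / 3 * ((1 - (x : ℂ)) * TT L x - 4))
    (a := s0) (b := s)
    (B := fun y : ℝ => ‖ee L s0‖ + η * C / 9 * ((1 - y) ^ 3)⁻¹)
    (B' := fun x : ℝ => η * C / 3 * ((1 - x) ^ 4)⁻¹)
    (fun x hx => (hder x hx).continuousAt.continuousWithinAt)
    (fun x hx => (hder x ⟨hx.1, hx.2.le⟩).hasDerivWithinAt)
    (by
      have hp : 0 < 1 - s0 := by linarith
      have : 0 ≤ η * C / 9 * ((1 - s0) ^ 3)⁻¹ := by positivity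
      linarith)
    (fun x hx => (hB x hx).continuousAt.continuousWithinAt)
    (fun x hx => (hB x ⟨hx.1, hx.2.le⟩).hasDerivWithinAt) hbound
  exact hfin ⟨hs, le_rfl⟩

/-- `(1-z)^3 L(z) - Q(z)/3 → 0` uniformly in Stolz sectors. -/
theorem L_sector (h : A2 L) {α : ℝ} (hα : 0 < α) (hg : ∀ t ∈ Ico (0 : ℝ) 1, α ≤ gr L 1 t)
    (hκ0 : 0 < κ) (hκ1 : κ ≤ 1) {ε : ℝ} (hε : 0 < ε) :
    ∃ δ : ℝ, 0 < δ ∧ δ ≤ κ ∧ ∀ z ∈ Sec κ δ, ‖(1 - z) ^ 3 * L z - QQ L z / 3‖ ≤ ε := by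
  set C1 : ℝ := 4 * ‖deriv L 0‖ with hC1
  set C : ℝ := 64 * ‖deriv L 0‖ / κ ^ 4 with hC
  have hC0 : 0 ≤ C := by positivity
  set D : ℝ := C1 / 9 + C / (κ ^ 4) with hD
  have hD0 : 0 ≤ D := by positivity
  set η : ℝ := ε / (2 * (D + 1)) with hη
  have hηpos : 0 < η := by positivity
  obtain ⟨s0, p0, p1, p2⟩ := ee_radial h hα hg hηpos
  obtain ⟨δ1, h1, h2, h3⟩ := T_sector h hα hg hκ0 hηpos
  set E : ℝ := ‖ee L s0‖ with hE
  have hE0 : 0 ≤ E := norm_nonneg _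
  set δ : ℝ := min (min δ1 (1 - s0)) (min 1 (ε / (2 * (E + 1)))) with hδ
  have hδ1 : δ ≤ δ1 := le_trans (min_le_left _ _) (min_le_left _ _)
  have hδ2 : δ ≤ 1 - s0 := le_trans (min_le_left _ _) (min_le_right _ _)
  have hδ3 : δ ≤ 1 := le_trans (min_le_right _ _) (min_le_left _ _)
  have hδ4 : δ ≤ ε / (2 * (E + 1)) := le_trans (min_le_right _ _) (min_le_right _ _)
  have hδ0 : 0 < δ := by
    refine lt_min (lt_min h1 (by linarith)) (lt_min one_pos (by positivity))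
  refine ⟨δ, hδ0, le_trans hδ1 h2, fun z hz => ?_⟩
  have ha := sec_pos hz
  set a : ℝ := ‖1 - z‖ with haa
  have had : a < δ := hz.2.1
  set s : ℝ := 1 - a with hs
  have hs1 : s < 1 := by linarith
  have hsS : (s : ℂ) ∈ Sec κ δ := real_mem_Sec hκ1 hs1 (by rw [hs, sub_sub_cancel]; exact had)
  have hns : ‖(1 - (s : ℂ))‖ = a := by
    have e1 : (1 - (s : ℂ)) = ((1 - s : ℝ) : ℂ) := by push_cast; ring
    rw [e1, Complex.norm_real, hs, sub_sub_cancel, Real.norm_of_nonneg ha.le]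
  -- radial estimate
  have r1 := p2 s (by linarith) hs1
  rw [show (1 - s) = a by rw [hs, sub_sub_cancel]] at r1
  -- segment estimate
  have hseg := seg_Sec (sec_mono hsS hδ1) (sec_mono hz hδ1) ha (by rw [hns]) (le_refl _) hκ0
  have hbd : ∀ ζ ∈ segment ℝ (s : ℂ) z,
      ‖deriv L ζ / 3 * ((1 - ζ) * TT L ζ - 4)‖ ≤ C / (κ * a) ^ 4 / 3 * η := by
    intro ζ hζ
    obtain ⟨q1, q2⟩ := hseg ζ hζ
    have q3 := QQ_bound h (sec_mono q1 h2)
    have q4 := h3 ζ q1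
    have q5 : ‖deriv L ζ‖ ≤ C / (κ * a) ^ 4 := by
      have q6 : ‖deriv L ζ‖ = ‖QQ L ζ‖ / ‖1 - ζ‖ ^ 4 := by
        have : ‖1 - ζ‖ ≠ 0 := (sec_pos q1).ne'
        unfold QQ
        rw [norm_mul, norm_pow]
        field_simp
      rw [q6]
      exact div_le_div₀ hC0 q3 (by positivity) (pow_le_pow_left₀ (by positivity) q2 4)
    rw [norm_mul, norm_div]
    have e3 : ‖(3 : ℂ)‖ = 3 := by simp
    rw [e3]
    exact mul_le_mul (by linarith) q4 (norm_nonneg _) (by positivity)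
  have hmv := Convex.norm_image_sub_le_of_norm_hasDerivWithin_le (f := ee L)
    (f' := fun ζ => deriv L ζ / 3 * ((1 - ζ) * TT L ζ - 4)) (s := segment ℝ (s : ℂ) z)
    (C := C / (κ * a) ^ 4 / 3 * η)
    (fun ζ hζ => (ee_hasDerivAt h (sec_mem h2 (hseg ζ hζ).1)).hasDerivWithinAt) hbd
    (convex_segment _ _) (left_mem_segment ℝ _ _) (right_mem_segment ℝ _ _)
  have hzs : ‖z - s‖ ≤ 2 * a := by
    have e1 : z - s = (1 - (s : ℂ)) - (1 - z) := by ring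
    rw [e1]
    refine le_trans (norm_sub_le _ _) ?_
    rw [hns]; linarith
  have r2 : ‖ee L z - ee L s‖ ≤ C / (κ * a) ^ 4 / 3 * η * (2 * a) :=
    le_trans hmv (mul_le_mul_of_nonneg_left hzs (by positivity))
  have r3 : ‖ee L z‖ ≤ E + η * C1 / 9 * (a ^ 3)⁻¹ + C / (κ * a) ^ 4 / 3 * η * (2 * a) := by
    have : ee L z = (ee L z - ee L s) + ee L s := by ring
    rw [this]
    refine le_trans (norm_add_le _ _) ?_
    linarith
  have e1 : (1 - z) ^ 3 * L z - QQ L z / 3 = -((1 - z) ^ 3 * ee L z) := by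
    unfold QQ ee; ring
  rw [e1, norm_neg, norm_mul, norm_pow]
  change a ^ 3 * ‖ee L z‖ ≤ ε
  have r4 : a ^ 3 * ‖ee L z‖ ≤ a ^ 3 * E + η * C1 / 9 + 2 / 3 * (C / κ ^ 4) * η := by
    refine le_trans (mul_le_mul_of_nonneg_left r3 (by positivity)) (le_of_eq ?_)
    field_simp
  have r5 : a ^ 3 ≤ δ := by
    have : a ^ 3 ≤ a := by
      have ha1 : a ≤ 1 := by linarith
      have : a ^ 2 ≤ 1 := by nlinarith
      nlinarith
    linarith
  have r6 : a ^ 3 * E ≤ ε / 2 := by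
    have t1 : a ^ 3 * E ≤ δ * E := mul_le_mul_of_nonneg_right r5 hE0
    have t2 : δ * E ≤ ε / (2 * (E + 1)) * E := mul_le_mul_of_nonneg_right hδ4 hE0
    have t3 : ε / (2 * (E + 1)) * E = ε / 2 * (E / (E + 1)) := by field_simp
    have t4 : E / (E + 1) ≤ 1 := by rw [div_le_one (by positivity)]; linarith
    have t5 : ε / 2 * (E / (E + 1)) ≤ ε / 2 * 1 := mul_le_mul_of_nonneg_left t4 (by positivity)
    linarith
  have r7 : η * C1 / 9 + 2 / 3 * (C / κ ^ 4) * η ≤ ε / 2 := by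
    have t1 : η * C1 / 9 + 2 / 3 * (C / κ ^ 4) * η ≤ η * D := by
      have : 0 ≤ C / κ ^ 4 * η := by positivity
      rw [hD]; nlinarith
    have t2 : η * D = ε / 2 * (D / (D + 1)) := by rw [hη]; field_simp
    have t3 : D / (D + 1) ≤ 1 := by rw [div_le_one (by positivity)]; linarith
    have t4 : ε / 2 * (D / (D + 1)) ≤ ε / 2 * 1 := mul_le_mul_of_nonneg_left t3 (by positivity)
    linarith
  linarith

end Pool.REG73
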